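import Pool.Agent.T6.H21.NC.Main

/-!
# The noncommutative Hodge conjecture for `D(X_1 × ⋯ × X_r) ⊠ 𝒟`, for an ARBITRARY admissible subcategory `𝒟` and fibres
`X_i`, over `ℚ`, of the hypergeometric families of Calabi–Yau varieties

Let `β_1, …, β_m`, `m ≥ 2`, be rational numbers in `(0, 1)`, `θ = z d/dz`. The hypergeometric operator
`θ^(2m) - z ∏_j (θ + β_j) (θ + 1 - β_j)` underlies a variation of Hodge structure of weight `2m - 1` and rank `2m` with all
Hodge numbers one. For `m = 2`, `β = (1/5, 2/5)` it is the variation of the third cohomology of the mirror quintic threefolds;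
for `β_j = j / (2m + 1)` that of the middle cohomology `V_t` of the mirrors `X_t` (a family of Calabi–Yau varieties of
dimension `2m - 1` over `ℚ`) of the Calabi–Yau hypersurfaces of degree `2m + 1`; the other cohomology of `X_t` is spanned by
classes of algebraic cycles.

Let `𝒟` be an ARBITRARY admissible subcategory of `D^perf(Z)`, `Z` an arbitrary smooth proper complex variety. Of `𝒟` we use
its rational topological K-theory `K^top_0(𝒟) ⊗ ℚ ⊕ K^top_1(𝒟) ⊗ ℚ = ℚ^d` and the decomposition of its complexification into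
the Hochschild homology groups `HH_δ(𝒟)` (for `𝒟 = D^perf(Z)` the sum of the `H^{p,q}(Z)` with `p - q = δ`), which are in
`K^top_0` for even `δ` and in `K^top_1` for odd `δ` (`IsHochschild`). The Hodge classes in `K^top_0(𝒟) ⊗ ℚ` are the rational
classes in `HH_0(𝒟)`. Let `D(X) ⊠ 𝒟 ⊆ D^perf(X × Z)` be the admissible subcategory generated by the products of objects of
`D(X)` and `𝒟` (the base change of `𝒟` to `X`), for `X = X_(c 1) × ⋯ × X_(c r)`, any `r` and `c` (repetitions are allowed). We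
prove (`Transfers`):

* every Hodge class in `K^top_0(D(X) ⊠ 𝒟) ⊗ ℚ` is a sum of products of algebraic classes on the factors `X_i`, of
  polarisations in `V_i ⊗ V_i` on pairs of equal factors (Künneth components of the diagonal), and of Hodge classes of `𝒟`;
* **the noncommutative Hodge conjecture for `D(X) ⊠ 𝒟` is equivalent to the noncommutative Hodge conjecture for `𝒟`.** So it is
  true for `D(X) ⊠ 𝒟` if `𝒟` is for instance the K3 category of a cubic fourfold or of a Gushel–Mukai variety, an admissible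
  subcategory of `D^perf(Z)` with `dim Z ≤ 3`, the category of modules over a finite dimensional algebra of finite global
  dimension, …

This holds (1) for all sufficiently large `G`, all `B`, `t` with `(B + 2)^E ≤ t` (`E` depends only on `β`, `G`) and all
families of different fibres at the points `z = 1 / (t - G u)`, `1 ≤ u ≤ B`, for all `u` outside a set of at most `m + 2`
elements (independent of `𝒟`) and a set of at most `d² / (m (2m + 1))` elements, where `d` is the rank of `K^top_*(𝒟)`: the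
bound does not depend on the ambient variety `Z`, and there is no such exception for the K3 categories (`d = 24`) if `m ≥ 17`,
and for all `𝒟` of rank less than the square root of `m (2m + 1)`; (2) for all but at most `K T^(k - δ)`, `δ > 0`, of the
`k`-tuples of fibres at the points `(1 / t_1, …, 1 / t_k)`, `t_i ≤ T`, where `δ`, `K` depend only on `β`, `k`, `d`.

The only properties of the classes of objects that are used are in `IsObjectClasses`: products of objects are objects, and the
restriction to the fibre over a point of `X` maps objects of `D(X) ⊠ 𝒟` to objects of `𝒟`.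
-/

set_option autoImplicit false

open Pool.Agent.Results.MP_4e1cf2_ag.ArbitraryFactor (IsFibre RationalStructure)

namespace Pool.Agent.Results.MP_43e44c_ag.HypergeometricFactors

/-- `K^top_0(𝒟) ⊗ ℚ ⊕ K^top_1(𝒟) ⊗ ℚ = ℚ^d`, the basis vectors `b` with `K1 b` are in `K^top_1`, the others in `K^top_0`; the
complexification is the direct sum of the Hochschild homology groups `U δ = HH_δ(𝒟)`, which are in `K^top_0` for even `δ` and
in `K^top_1` for odd `δ`. -/
structure IsHochschild {d : ℕ} (K1 : Fin d → Prop) (U : ℤ → Submodule ℂ (Fin d → ℂ)) : Prop where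
  internal : DirectSum.IsInternal U
  parity : ∀ δ, ∀ w ∈ U δ, ∀ b, w b ≠ 0 → (K1 b ↔ Odd δ)

/-- The rational class `z` of `𝒟` is a Hodge class, an element of `HH_0(𝒟)`. -/
def IsHodge {d : ℕ} (U : ℤ → Submodule ℂ (Fin d → ℂ)) (z : Fin d → ℚ) : Prop := (fun b => ((z b : ℚ) : ℂ)) ∈ U 0

/-- The rational topological K-theory of the fibre is `ℚ^s ⊕ V`, with the classes `e` of algebraic cycles in `K^top_0` and the
middle cohomology `V = ℚ^n` in `K^top_1`; `V p` is the part of type `(p, n - 1 - p)` of `V`, `p < n`, which has the Hochschild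
degree `p - (n - 1 - p)`. The class `h` is in the part `HH_δ` of degree `δ`. -/
def IsDegree {s n : ℕ} (V : ℕ → Submodule ℂ (Fin n → ℂ)) (δ : ℤ) (h : Fin s ⊕ Fin n → ℂ) : Prop :=
  (∀ e, h (Sum.inl e) ≠ 0 → δ = 0) ∧
    ((∃ p : ℕ, p < n ∧ δ = 2 * (p : ℤ) - ((n : ℤ) - 1) ∧ (fun l => h (Sum.inr l)) ∈ V p) ∨ ∀ l, h (Sum.inr l) = 0)

/-- `HH_δ(D(X) ⊠ 𝒟)`, `X = X_(c 1) × ⋯ × X_(c r)`: a class `f` is given by its coefficients `f J b` at the products of the basis
classes `J x` of the factors `x = 1, …, r` and the basis class `b` of `𝒟`; the part of degree `δ` is spanned by the products of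
classes of degrees `a x` and `q` with `∑ a x + q = δ`. -/
def HochschildDegree {r k s n d : ℕ} (V : Fin k → ℕ → Submodule ℂ (Fin n → ℂ)) (c : Fin r → Fin k)
    (U : ℤ → Submodule ℂ (Fin d → ℂ)) (δ : ℤ) : Submodule ℂ ((Fin r → Fin s ⊕ Fin n) → Fin d → ℂ) :=
  Submodule.span ℂ {f | ∃ (a : Fin r → ℤ) (h : Fin r → Fin s ⊕ Fin n → ℂ) (q : ℤ) (w : Fin d → ℂ),
    (∀ x, IsDegree (V (c x)) (a x) (h x)) ∧ w ∈ U q ∧ ∑ x, a x + q = δ ∧ f = fun J b => (∏ x, h x (J x)) * w b}

/-- The rational class `t` of `D(X) ⊠ 𝒟` is a Hodge class, an element of `HH_0(D(X) ⊠ 𝒟)`. -/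
def IsHodgeProduct {r k s n d : ℕ} (V : Fin k → ℕ → Submodule ℂ (Fin n → ℂ)) (c : Fin r → Fin k)
    (U : ℤ → Submodule ℂ (Fin d → ℂ)) (t : (Fin r → Fin s ⊕ Fin n) → Fin d → ℚ) : Prop :=
  (fun J b => ((t J b : ℚ) : ℂ)) ∈ HochschildDegree V c U 0

/-- The coefficients of the algebraic class `e` (and `1` for `none`). -/
def algClass {s n : ℕ} : Option (Fin s) → Fin s ⊕ Fin n → ℚ
  | none, _ => 1
  | some e, Sum.inl e' => if e = e' then 1 else 0
  | some _, Sum.inr _ => 0

/-- The coefficients of the polarisation tensor `A⁻¹` in `V ⊗ V`, up to a factor the Künneth component of the diagonal. -/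
noncomputable def pairClass {s n : ℕ} (A : Matrix (Fin n) (Fin n) ℚ) : Fin s ⊕ Fin n → Fin s ⊕ Fin n → ℚ
  | Sum.inr l, Sum.inr l' => A⁻¹ l l'
  | _, _ => 0

/-- The product of the class `z` of `𝒟`, of the algebraic classes `e` on the factors `x` with `σ x = some e`, and of the
polarisation tensors on the pairs `(e (i, 0), e (i, 1))` into which the other factors are divided. -/
noncomputable def productClass {r s n d l : ℕ} (A : Matrix (Fin n) (Fin n) ℚ) (σ : Fin r → Option (Fin s))
    (e : Fin l × Fin 2 ≃ {x // σ x = none}) (z : Fin d → ℚ) : (Fin r → Fin s ⊕ Fin n) → Fin d → ℚ := fun J b =>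
  (∏ x, algClass (σ x) (J x)) * (∏ i, pairClass A (J (e (i, 0))) (J (e (i, 1)))) * z b

/-- `t` is a product class with a class `z` in `M`; the two factors of each pair have the same colour (are the same `X_i`). -/
def IsProduct {r k s n d : ℕ} (A : Matrix (Fin n) (Fin n) ℚ) (c : Fin r → Fin k) (M : Set (Fin d → ℚ))
    (t : (Fin r → Fin s ⊕ Fin n) → Fin d → ℚ) : Prop :=
  ∃ (σ : Fin r → Option (Fin s)) (l : ℕ) (e : Fin l × Fin 2 ≃ {x // σ x = none}) (z : Fin d → ℚ),
    z ∈ M ∧ (∀ i, c (e (i, 0)) = c (e (i, 1))) ∧ t = productClass A σ e z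

/-- `alg` and `algX` are the spans of the classes of the objects of `𝒟` and of `D(X) ⊠ 𝒟`: the products of algebraic classes on
`X` and classes of objects of `𝒟` are in `algX`, and the restriction of an object of `D(X) ⊠ 𝒟` to the fibre over a point of `X`
is an object of `𝒟` (`e₀` is the unit class of the `X_i`, the other basis classes have positive degree). -/
structure IsObjectClasses {r k s n d : ℕ} (A : Matrix (Fin n) (Fin n) ℚ) (c : Fin r → Fin k) (e₀ : Fin s)
    (alg : Submodule ℚ (Fin d → ℚ)) (algX : Submodule ℚ ((Fin r → Fin s ⊕ Fin n) → Fin d → ℚ)) : Prop where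
  box : ∀ t, IsProduct A c (alg : Set (Fin d → ℚ)) t → t ∈ algX
  fibre : ∀ t ∈ algX, t (fun _ => Sum.inl e₀) ∈ alg

/-- For all products `X = X_(c 1) × ⋯ × X_(c r)`: all Hodge classes of `D(X) ⊠ 𝒟` are sums of products of algebraic classes on
the factors, polarisations on pairs of equal factors and Hodge classes of `𝒟`, and the noncommutative Hodge conjecture for
`D(X) ⊠ 𝒟` is equivalent to the noncommutative Hodge conjecture for `𝒟`. -/
def Transfers {k n d : ℕ} (A : Matrix (Fin n) (Fin n) ℚ) (V : Fin k → ℕ → Submodule ℂ (Fin n → ℂ))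
    (U : ℤ → Submodule ℂ (Fin d → ℂ)) : Prop :=
  ∀ (r s : ℕ) (c : Fin r → Fin k),
    (∀ t : (Fin r → Fin s ⊕ Fin n) → Fin d → ℚ, IsHodgeProduct V c U t →
      t ∈ Submodule.span ℚ {u | IsProduct A c {z | IsHodge U z} u}) ∧
    ∀ (e₀ : Fin s) (alg : Submodule ℚ (Fin d → ℚ)) (algX : Submodule ℚ ((Fin r → Fin s ⊕ Fin n) → Fin d → ℚ)),
      IsObjectClasses A c e₀ alg algX →
      ((∀ t, IsHodgeProduct V c U t → t ∈ algX) ↔ ∀ z, IsHodge U z → z ∈ alg)

theorem algClass_eq {s n : ℕ} : @algClass s n = Pool.Agent.T6.H21.NC.cls := by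
  funext a b
  rcases a with _ | a <;> rcases b with b | b <;> rfl

theorem pairClass_eq {s n : ℕ} (A : Matrix (Fin n) (Fin n) ℚ) :
    @pairClass s n A = Pool.Agent.T6.H21.NC.pair A := by
  funext a b
  rcases a with a | a <;> rcases b with b | b <;> rfl

theorem productClass_eq {r s n d l : ℕ} (A : Matrix (Fin n) (Fin n) ℚ) (σ : Fin r → Option (Fin s))
    (e : Fin l × Fin 2 ≃ {x // σ x = none}) (z : Fin d → ℚ) :
    productClass A σ e z = Pool.Agent.T6.H21.NC.box A σ e z := by
  unfold productClass Pool.Agent.T6.H21.NC.box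
  rw [algClass_eq, pairClass_eq]

theorem transfers_of {m k d : ℕ} (hm : 1 ≤ m) {A : Matrix (Fin (2 * m)) (Fin (2 * m)) ℚ}
    {V : Fin k → ℕ → Submodule ℂ (Fin (2 * m) → ℂ)} {K1 : Fin d → Prop} {U : ℤ → Submodule ℂ (Fin d → ℂ)}
    (hU : IsHochschild K1 U)
    (hP : Pool.Agent.Results.MP_4e1cf2_ag.ArbitraryFactor.OnlyProducts A V (Pool.Agent.T6.H21.NC.mrg U)) :
    Transfers A V U := by
  intro r s c
  have h1 : ∀ t : (Fin r → Fin s ⊕ Fin (2 * m)) → Fin d → ℚ, IsHodgeProduct V c U t →
      t ∈ Submodule.span ℚ {u | IsProduct A c {z | IsHodge U z} u} := by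
    intro t ht
    have h2 := Pool.Agent.T6.H21.NC.mem_boxes hm c (K1 := K1) ⟨hU.1, hU.2⟩ hP (t := t) ht
    refine (Submodule.span_mono ?_) h2
    rintro u ⟨σ, l, e, z, hz, hc, rfl⟩
    exact ⟨σ, l, e, z, hz, hc, (productClass_eq A σ e z).symm⟩
  refine ⟨h1, fun e₀ alg algX hobj => ⟨fun hX z hz => ?_, fun hD t ht => ?_⟩⟩
  · -- the product with the structure sheaf
    have hem : IsEmpty {x : Fin r // (fun _ : Fin r => some e₀) x = none} := ⟨fun x => by simpa using x.2⟩
    have e : Fin 0 × Fin 2 ≃ {x : Fin r // (fun _ : Fin r => some e₀) x = none} := Equiv.equivOfIsEmpty _ _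
    have hval : ∀ J b, productClass A (fun _ => some e₀) e z J b =
        (∏ x, algClass (some e₀) (J x)) * z b := by
      intro J b
      unfold productClass
      rw [Finset.univ_eq_empty (α := Fin 0), Finset.prod_empty, mul_one]
    have hcast : ∀ u : Fin s ⊕ Fin (2 * m), ((algClass (some e₀) u : ℚ) : ℂ) =
        (Pi.single (Sum.inl e₀) 1 : Fin s ⊕ Fin (2 * m) → ℂ) u := by
      intro u
      rcases u with e' | l
      · by_cases h : e₀ = e'
        · subst h; simp [algClass]
        · rw [Pi.single_eq_of_ne (fun h' => h (Sum.inl.inj h').symm)]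
          simp [algClass, h]
      · rw [Pi.single_eq_of_ne (by simp)]
        simp [algClass]
    have h2 : IsHodgeProduct V c U (productClass A (fun _ => some e₀) e z) := by
      refine Submodule.subset_span ⟨fun _ => 0, fun _ => Pi.single (Sum.inl e₀) 1, 0, fun b => ((z b : ℚ) : ℂ),
        fun x => ⟨fun _ _ => rfl, Or.inr fun l => Pi.single_eq_of_ne (by simp) _⟩, hz, by simp, ?_⟩
      funext J b
      rw [hval, Rat.cast_mul, Rat.cast_prod]
      congr 1
      exact Finset.prod_congr rfl fun x _ => hcast _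
    have h3 := hobj.fibre _ (hX _ h2)
    have h4 : productClass A (fun _ => some e₀) e z (fun _ => Sum.inl e₀) = z := by
      funext b
      rw [hval]
      simp [algClass]
    rw [h4] at h3
    exact h3
  · refine (Submodule.span_le (p := algX)).2 ?_ (h1 t ht)
    rintro u ⟨σ, l, e, z, hz, hc, rfl⟩
    exact hobj.box _ ⟨σ, l, e, z, hD z hz, hc, rfl⟩

/-- Let `m ≥ 2` and let `β_1, …, β_m` be rational numbers in `(0, 1)`.
(1) For all sufficiently large `G` there is `E` such that for all `B`, `t` with `(B + 2)^E ≤ t` and all rational structures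
`(C, A)` there is a set `S` with at most `m + 2` elements such that for every `𝒟` (with `d` the rank of `K^top_*(𝒟)` and
Hochschild homology given by the grading `U` of `ℂ^d`) there is a set `S'` with at most `d² / (m (2m + 1))` elements such that
for all `k`, all different `u_1, …, u_k ∈ {1, …, B}` outside `S ∪ S'` and all Hodge structures `V_1, …, V_k` on `ℚ^(2m)` which
are the fibres of the hypergeometric variation at the points `z = 1 / (t - G u_i)`, for all products `X = X_(c 1) × ⋯ × X_(c r)`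
of these fibres all Hodge classes of `D(X) ⊠ 𝒟` are sums of products of algebraic classes, polarisations on pairs of equal
factors and Hodge classes of `𝒟`, and the noncommutative Hodge conjectures for `D(X) ⊠ 𝒟` and for `𝒟` are equivalent.
(2) For all `k` and `d` there are `δ > 0` and `K` such that for all rational structures `(C, A)`, all `𝒟` with `K^top_*(𝒟)` of
rank `d` and all `T ≥ 1` this is true for all fibres at the points `z = 1 / t_i`, for all but at most `K T^(k - δ)` of the
tuples `(t_1, …, t_k)` of natural numbers `≤ T`. -/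
theorem result {m : ℕ} (hm : 2 ≤ m) (β : Fin m → ℚ) (hβ : ∀ j, 0 < β j ∧ β j < 1) :
    (∃ G0 : ℕ, ∀ G : ℕ, G0 ≤ G → ∃ E : ℕ, ∀ B t : ℕ, (B + 2) ^ E ≤ t → G * B < t ∧
      ∀ (C : Matrix (Fin (2 * m)) (Fin (2 * m)) ℂ) (A : Matrix (Fin (2 * m)) (Fin (2 * m)) ℚ), RationalStructure C A →
      ∃ S : Finset ℕ, S.card ≤ m + 2 ∧
      ∀ (d : ℕ) (K1 : Fin d → Prop) (U : ℤ → Submodule ℂ (Fin d → ℂ)), IsHochschild K1 U →
      ∃ S' : Finset ℕ, S'.card * (m * (2 * m + 1)) ≤ d ^ 2 ∧
      ∀ (k : ℕ) (u : Fin k → ℕ), Function.Injective u → (∀ i, 1 ≤ u i ∧ u i ≤ B ∧ u i ∉ S ∧ u i ∉ S') →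
      ∀ V : Fin k → ℕ → Submodule ℂ (Fin (2 * m) → ℂ), (∀ i, IsFibre β (t - G * u i) C A (V i)) → Transfers A V U) ∧
    ∀ k d : ℕ, ∃ δ K : ℝ, 0 < δ ∧
      ∀ (C : Matrix (Fin (2 * m)) (Fin (2 * m)) ℂ) (A : Matrix (Fin (2 * m)) (Fin (2 * m)) ℚ), RationalStructure C A →
      ∀ (K1 : Fin d → Prop) (U : ℤ → Submodule ℂ (Fin d → ℂ)), IsHochschild K1 U → ∀ T : ℕ, 1 ≤ T →
      ({τ : Fin k → ℕ | (∀ i, τ i ≤ T) ∧ ∃ V : Fin k → ℕ → Submodule ℂ (Fin (2 * m) → ℂ),
        (∀ i, IsFibre β (τ i) C A (V i)) ∧ ¬ Transfers A V U}.ncard : ℝ) ≤ K * (T : ℝ) ^ ((k : ℝ) - δ) := by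
  obtain ⟨⟨G0, h0⟩, h1⟩ := Pool.Agent.Results.MP_4e1cf2_ag.ArbitraryFactor.result hm β hβ
  refine ⟨⟨G0, fun G hG => ?_⟩, fun k d => ?_⟩
  · obtain ⟨E, hE⟩ := h0 G hG
    refine ⟨E, fun B t ht => ?_⟩
    obtain ⟨h2, h3⟩ := hE B t ht
    refine ⟨h2, fun C A hC => ?_⟩
    obtain ⟨S, hS, h4⟩ := h3 C A hC
    refine ⟨S, hS, fun d K1 U hU => ?_⟩
    obtain ⟨S', hS', h5⟩ := h4 d (Pool.Agent.T6.H21.NC.mrg U) (Pool.Agent.T6.H21.NC.mrg_internal hU.1)
    exact ⟨S', hS', fun k u hu huS V hV => transfers_of (by omega) hU (h5 k u hu huS V hV)⟩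
  · obtain ⟨δ, K, hδ, h2⟩ := h1 k d
    refine ⟨δ, K, hδ, fun C A hC K1 U hU T hT => ?_⟩
    refine le_trans ?_ (h2 C A hC (Pool.Agent.T6.H21.NC.mrg U) (Pool.Agent.T6.H21.NC.mrg_internal hU.1) T hT)
    refine Nat.cast_le.2 (Set.ncard_le_ncard ?_ ((Set.finite_Iic (fun _ => T : Fin k → ℕ)).subset fun τ hτ => fun i => hτ.1 i))
    rintro τ ⟨hτ, V, hV, hn⟩
    exact ⟨hτ, V, hV, fun h => hn (transfers_of (by omega) hU h)⟩

end Pool.Agent.Results.MP_43e44c_ag.HypergeometricFactors
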