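import Pool.Agent.T6.H21.MP.Per

/-!
# The noncommutative Hodge conjecture for `D(A^n) ⊠ 𝒟`, for abelian varieties `A` with many algebraically independent periods
and ARBITRARY admissible subcategories `𝒟`

Let `𝒟` be an arbitrary admissible subcategory of `D^perf(Y)`, `Y` an arbitrary smooth proper complex variety. Of `𝒟` we use
the rational topological K-theory `K^top_0(𝒟)_ℚ ⊕ K^top_1(𝒟)_ℚ = ℚ^v` and the Hodge operator `V.z` on its complexification
(periodic cyclic homology), the multiplication by `δ` on the Hochschild homology group `HH_δ(𝒟)` (for `𝒟 = D^perf(Y)` the sum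
of the `H^{p,q}(Y)` with `p - q = δ`); together they are `V : Coh v`, with `V.dg b = 0` or `1` if the basis vector `b` is in
`K^top_0` or `K^top_1`. The Hodge classes (`IsHodgeOn`) are the rational classes in `HH_0(𝒟)`, the kernel of `V.z`; they are in
`K^top_0`. The noncommutative Hodge filtration `⨁_{m ≥ n} HH_m(𝒟)` is *over the subfield `K` of `ℂ`* (`HasFiltrationOver`) if
its steps are spanned by vectors with coordinates in `K` in the rational basis: the periods of `𝒟` are in `K`. For every `𝒟` this
is true for a finitely generated field `K`. Moreover `𝒟` is of CM type (`IsOfCMType`) if the Hodge operator commutes with its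
conjugates.

Let `A` be the principally polarised abelian variety of dimension `g` with period matrix `Z`, and suppose that `D` of the
entries of `Z` are algebraically independent over `K`. (Every abelian variety is isogenous to a principally polarised one; `Z`
has `g (g + 1) / 2` different entries.) We prove: `A` is isogenous to a product `A₁ × A₂` of principally polarised abelian
varieties with `dim A₂ = r` such that

* `r ≤ ρ` for every `ρ` with `g² / 4 < D` and `((ρ + 1)² / 2 + (g - ρ - 1) (g - ρ)) / 2 < D`; in particular **`r = 0`, and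
  `A₂ = 0`, `A = A₁` up to isogeny, if `D > g (g - 1) / 2`**;
* for every `𝒟` which has periods in the field `K(Z₂)`, `Z₂` the period matrix of `A₂` (for instance `𝒟 = D(A₂^m) ⊠ 𝒟'`, where
  the periods of `𝒟'` are in `K`), or which is of CM type, and for **all powers** `A₁^n`: every Hodge class in
  `K^top_0(D(A₁^n) ⊠ 𝒟)_ℚ` is a sum of products of a product of divisor classes on `A₁^n` and a Hodge class of `𝒟`, and **the
  noncommutative Hodge conjecture for `D(A₁^n) ⊠ 𝒟` is equivalent to the noncommutative Hodge conjecture for `𝒟`**;
* if `r = 0`, then this is true for the powers of `A` and all `𝒟` with periods in `K` or of CM type.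

So if `D > g (g - 1) / 2`, then the noncommutative Hodge conjecture is true for `D(A^n) ⊠ 𝒟` for all `n` and for instance for
the K3 categories `𝒟` of cubic fourfolds and Gushel–Mukai varieties with periods in `K`, and all admissible subcategories of
`D^perf(Y)`, `dim Y ≤ 3`, with periods in `K`. The bound `g (g - 1) / 2` is sharp: for `A = E × A'` with an elliptic curve `E`
with complex multiplication and `A'` with `g (g - 1) / 2` independent periods, and `𝒟 = D(E)`, the class of the graph of an
endomorphism of `E` is not a sum of products.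

`D(A^n) ⊠ 𝒟 ⊆ D^perf(A^n × Y)` is the admissible subcategory generated by the products of objects of `D(A^n)` and `𝒟`. Its
topological K-theory is the space `HAZ W v` of the alternating forms of all degrees on the rational homology
`W = (ℚ^g ⊕ ℚ^g)^n` of `A^n` with values in `ℚ^v`, and `IsHodgeOnProduct` says that a class is in `HH_0`: it extends to a
real multilinear form on the tangent space with values in `ℂ^v` which is killed by the sum of the Hodge operators of `A^n` and
`𝒟`. The only properties of the classes of objects that are used are in `IsObjectClasses`: products of objects are objects, and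
the restriction to the fibre over the origin of `A^n` maps objects of `D(A^n) ⊠ 𝒟` to objects of `𝒟`.

The proof: many independent periods give derivations of `ℂ` over `K(Z₂)` which move the simple factors of `A₁`, so that the Lie
algebras generated by the Hodge operators of these factors are symplectic; and these derivations preserve the noncommutative
Hodge filtration of `𝒟`, so that the Hodge structures of `A₁^n` and `𝒟` are independent.
-/

set_option autoImplicit false

namespace Pool.Agent.Results.MP_43e44c_ag.IndependentPeriods

open Pool.Agent.W437.HC (perPow)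
open Pool.Agent.TH131.GHC (Coh HAZ cross)
open Pool.Agent.TH504.VY (divisorSpan IsHodgeOn IsHodgeOnProduct)
open Pool.Agent.X311 (IsPeriodMatrix IsIsogenousToProduct periodField HasFiltrationOver IsOfCMType)

section

variable {W T : Type} [AddCommGroup W] [Module ℚ W] [AddCommGroup T] [Module ℂ T]

/-- `alg` and `algX` are the spans of the classes of the objects of `𝒟` and of `D(A^n) ⊠ 𝒟`: the products of products of
divisor classes on `A^n` and classes of objects of `𝒟` are in `algX`, and the restriction of an object of `D(A^n) ⊠ 𝒟` to the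
fibre over the origin of `A^n`, that is the component in degree `0`, is an object of `𝒟`. -/
structure IsObjectClasses (per : W →+ T) {v : ℕ} (alg : Submodule ℚ (Fin v → ℚ)) (algX : Submodule ℚ (HAZ W v)) : Prop where
  box : ∀ k, ∀ f ∈ divisorSpan per k, ∀ x ∈ alg, cross f x ∈ algX
  fibre : ∀ F ∈ algX, F 0 (fun l => l.elim0) ∈ alg

/-- All Hodge classes of `D(A^n) ⊠ 𝒟` are sums of products of a combination of products of divisor classes on `A^n` and a Hodge
class of `𝒟`. -/
def OnlyProducts (per : W →+ T) {v : ℕ} (V : Coh v) : Prop :=
  ∀ F, IsHodgeOnProduct per V F →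
    F ∈ Submodule.span ℚ {G | ∃ (k : ℕ) (f : W [⋀^Fin k]→ₗ[ℚ] ℚ) (x : Fin v → ℚ),
      f ∈ divisorSpan per k ∧ IsHodgeOn V x ∧ G = cross f x}

/-- The noncommutative Hodge conjecture for `D(A^n) ⊠ 𝒟` is equivalent to the noncommutative Hodge conjecture for `𝒟`. -/
def NCHodgeIff (per : W →+ T) {v : ℕ} (V : Coh v) : Prop :=
  ∀ (alg : Submodule ℚ (Fin v → ℚ)) (algX : Submodule ℚ (HAZ W v)), IsObjectClasses per alg algX →
    ((∀ F, IsHodgeOnProduct per V F → F ∈ algX) ↔ ∀ x, IsHodgeOn V x → x ∈ alg)

end

/-- For all powers `A^n` of the abelian variety with period matrix `Z` and all (noncommutative) varieties `𝒟` of CM type or with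
noncommutative Hodge filtration over `K`: all Hodge classes of `D(A^n) ⊠ 𝒟` are sums of products of a combination of products of
divisor classes on `A^n` and a Hodge class of `𝒟`, and the noncommutative Hodge conjecture for `D(A^n) ⊠ 𝒟` is equivalent to the
noncommutative Hodge conjecture for `𝒟`. -/
def TransfersOver (K : Subfield ℂ) {g : ℕ} (Z : Matrix (Fin g) (Fin g) ℂ) : Prop :=
  ∀ (v : ℕ) (V : Coh v), IsOfCMType V ∨ HasFiltrationOver K V →
    ∀ n : ℕ, OnlyProducts (perPow Z n) V ∧ NCHodgeIff (perPow Z n) V

/-- The abelian variety with period matrix `Z` is isogenous to the product of the ones with the period matrices `Z₁` and `Z₂`,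
and the dimension `r` of the second factor is at most `ρ` for all `ρ` such that `g² / 4` and
`((ρ + 1)² / 2 + (g - ρ - 1) (g - ρ)) / 2` are less than `D`, and `r = 0` if `D > g (g - 1) / 2`. -/
structure IsSplitting (D : ℕ) {g b r : ℕ} (Z : Matrix (Fin g) (Fin g) ℂ) (Z₁ : Matrix (Fin b) (Fin b) ℂ)
    (Z₂ : Matrix (Fin r) (Fin r) ℂ) : Prop where
  period₁ : IsPeriodMatrix Z₁
  period₂ : IsPeriodMatrix Z₂
  isogenous : IsIsogenousToProduct Z Z₁ Z₂
  dim : b + r = g
  small : ∀ ρ : ℕ, g ^ 2 < 4 * D → (ρ + 1) ^ 2 + 2 * (g - ρ - 1) * (g - ρ) < 4 * D → r ≤ ρ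
  zero : g * (g - 1) < 2 * D → r = 0

theorem transfersOver_of {K : Subfield ℂ} {g : ℕ} {Z : Matrix (Fin g) (Fin g) ℂ}
    (h : ∀ (v : ℕ) (V : Coh v), IsOfCMType V ∨ HasFiltrationOver K V → ∀ n, Pool.Agent.T6.H21.MP.Repro (perPow Z n) V) :
    TransfersOver K Z := fun v V hV n =>
  ⟨fun _ hF => (h v V hV n).mem_cross hF, fun _ _ hobj => (h v V hV n).hodge_iff hobj.box hobj.fibre⟩

/-- Let `Z` be a period matrix of size `g` such that `D` of its entries are algebraically independent over the field `K` of
complex numbers. Then the abelian variety `A` with period matrix `Z` is isogenous to the product of the abelian varieties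
`A₁`, `A₂` with period matrices `Z₁`, `Z₂` of sizes `b`, `r`, where `r ≤ ρ` for all `ρ` such that `g² / 4` and
`((ρ + 1)² / 2 + (g - ρ - 1) (g - ρ)) / 2` are less than `D`, and `r = 0` if `D > g (g - 1) / 2`. For all (noncommutative)
varieties `𝒟` of CM type or with noncommutative Hodge filtration over `K(Z₂)`: the Hodge classes of `D(A₁^n) ⊠ 𝒟` are sums of
products, and the noncommutative Hodge conjectures for `D(A₁^n) ⊠ 𝒟` and for `𝒟` are equivalent, for all `n`. If `r = 0`, then
this is true for `A` itself and all `𝒟` of CM type or with noncommutative Hodge filtration over `K`. -/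
theorem result {g : ℕ} (Z : Matrix (Fin g) (Fin g) ℂ) (hZ : IsPeriodMatrix Z) (K : Subfield ℂ) {D : ℕ}
    (p : Fin D → Fin g × Fin g) (hp : AlgebraicIndependent K fun s => Z (p s).1 (p s).2) :
    ∃ (b r : ℕ) (Z₁ : Matrix (Fin b) (Fin b) ℂ) (Z₂ : Matrix (Fin r) (Fin r) ℂ), IsSplitting D Z Z₁ Z₂ ∧
      TransfersOver (periodField K Z₂) Z₁ ∧ (r = 0 → TransfersOver K Z) := by
  obtain ⟨b, r, Z₁, Z₂, h1, h2, h3, h4, h5, h6, h7⟩ :=
    Pool.Agent.T6.H21.MP.repro_periods Z hZ.1 hZ.2 K p hp
  exact ⟨b, r, Z₁, Z₂, ⟨h1, h2, h3, h4, h5, fun hD => Pool.Agent.T6.H21.MP.zero_of_small h5 hD⟩, transfersOver_of h6,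
    fun hr => transfersOver_of (h7 hr)⟩

end Pool.Agent.Results.MP_43e44c_ag.IndependentPeriods
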