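import Mathlib
import Pool.Agent.R299.NCH.Main
import Pool.Agent.T6.H22.DI.Irr
import Pool.Agent.T6.H22.DI.Indep

/-!
# The noncommutative Hodge conjecture for `D(A) ⊠ 𝒟`, for all CM types of the CM fields with an
# isolated residue degree

Let `E` be a CM field. The hypothesis on `E` is a condition on the decomposition of **one** prime number
`ℓ` in `E` (`IsIsolated ℓ k E`): `ℓ` is unramified in `E`, one prime ideal over `ℓ` has the residue
degree `2 ^ (k + 1)`, and `2 ^ (k + 1)` does not divide the residue degrees of the others. For
instance, the residue degrees of some prime number are `8, 6, 5, 5, 4`, or `2, 1, 1, ..., 1`, or the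
degree of `E` is a power of two and some prime number is inert. Nothing else is assumed, neither on the
degree nor on the Galois group of `E`.

The first part of the theorem is for the products `A` of arbitrary powers of the abelian varieties of
CM types `(E i, Φ i)`, for **all** CM types `Φ i` of the members `E i` of a family of CM fields that can
be ordered such that for each member some `ℓ` and `k` are isolated in it and thin in the previous ones
(`IsIsolatedTower`; `IsThin ℓ k K`: the degree of `K` is less than `2 ^ (k + 1)`, or `ℓ` is unramified
in `K` and `2 ^ (k + 1)` divides none of the residue degrees of `ℓ` in `K`). For one field `E` this is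
the condition above. Let `𝒟` be an admissible subcategory of `D^perf(Z)`, for any smooth proper `Z`,
which is unrelated to the fields `E i` (`Unrelated`). Then (`NCHodgeTimes`, as in the starting result
`MP_43e44c_ag.BoxWithCMVarieties`, where the notions are explained)

* every Hodge class in `K^top_0(D(A) ⊠ 𝒟) ⊗ ℚ` is a sum of products `f ⊗ x` of a combination `f` of
  products of divisor classes on `A` and a Hodge class `x` in `K^top_0(𝒟) ⊗ ℚ`;
* the noncommutative Hodge conjecture for `D(A) ⊠ 𝒟` is equivalent to the noncommutative Hodge
  conjecture for `𝒟`.

The second part: for a field `E` with an isolated residue degree **all** admissible subcategories `𝒟`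
with `K^top(𝒟)` of rank less than `[E : ℚ]`, in varieties `Z` with arbitrary Betti numbers, are
unrelated to `E`; for instance all K3 categories (rank `24`) if `[E : ℚ] > 24`.

So for these fields there are no exceptional CM types at all, while the theorem
`MP_43e44c_ag.BoxWithCMVarieties` is for all but a small proportion of the CM types of a field, and
does not decide a given one.

New in the proof: the decomposition of `ℓ` gives an automorphism `σ` of `ℂ` with a cycle `O` of
length `2 ^ (k + 1)` on the complex embeddings of `E` such that a power `τ` of `σ` is the complex
conjugation on `O` and the identity on all other embeddings of `E` and on the embeddings of the thin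
fields. So for a function `n` on the embeddings with `n (conj φ) = - n φ` the function `n - n ∘ τ`
is supported on `O`, where such functions are a vector space of dimension one over the field
`ℚ[X] / (X ^ (2 ^ k) + 1)`. Hence these functions are an irreducible representation of the Galois
group (`mem_of_stable`), no CM type is degenerate, and the fields are pairwise independent.
-/

set_option autoImplicit false

namespace Pool.Agent.Results.MP_43e44c_ag.IsolatedResidueDegrees

open NumberField Module Pool.Agent.H204R3.CM Pool.Agent.H977R3.CM Pool.Agent.Y1.HZ
  Pool.Agent.R299.NCH Pool.Agent.T6.H22.DI Pool.Agent.TH504.VY Pool.Agent.TH131.GHC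

/-- Each member of a tower has an isolated residue degree. -/
theorem isolated_of_tower {ι : Type} {E : ι → Type} [∀ i, Field (E i)] [∀ i, NumberField (E i)]
    {S : Set ι} (hS : IsIsolatedTower E S) : ∀ i ∈ S, ∃ ℓ k : ℕ, ℓ.Prime ∧ IsIsolated ℓ k (E i) := by
  induction hS with
  | empty => exact fun i hi => absurd hi (Set.notMem_empty i)
  | insert i S ℓ k hS hℓ hiso hthin ih =>
    rintro j (rfl | hj)
    · exact ⟨ℓ, k, hℓ, hiso⟩
    · exact ih j hj

/-- **The noncommutative Hodge conjecture for `D(A) ⊠ 𝒟` is equivalent to the noncommutative Hodge
conjecture for `𝒟`, for the abelian varieties `A` of all CM types of the CM fields with isolated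
residue degrees, and for all unrelated `𝒟`, in particular for all `𝒟` of small rank.** -/
theorem result :
    (∀ (ι : Type) [Fintype ι] (E : ι → Type) [∀ i, Field (E i)] [∀ i, NumberField (E i)]
      [∀ i, IsCMField (E i)], IsIsolatedTower E Set.univ →
      ∀ Φ : ∀ i, Set (E i →+* ℂ), (∀ i, IsCMType (Φ i)) → NCHodgeTimes Φ) ∧
    ∀ (E : Type) [Field E] [NumberField E] [IsCMField E] (ℓ k : ℕ), ℓ.Prime → IsIsolated ℓ k E →
      ∀ (v : ℕ) (V : Coh v) (P : Matrix (Fin v) (Fin v) ℚ), IsProjector V P →
        P.rank < finrank ℚ E → Unrelated V P E := by
  refine ⟨?_, ?_⟩
  · intro ι _ E _ _ _ hE Φ hΦ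
    refine ncHodgeTimes_of_hodgeTimes
      (hodgeTimes_of_not_degenerate hΦ (pairwiseIndep_of_tower hE) fun i => ?_)
    obtain ⟨ℓ, k, hℓ, hi⟩ := isolated_of_tower hE i (Set.mem_univ i)
    exact not_degenerate hℓ hi (hΦ i)
  · intro E _ _ _ ℓ k hℓ hE v V P hP hrank
    exact rankCriterion_holds E v V P hP fun S hS => lt_of_lt_of_le hrank (finrank_le hℓ hE hS)

end Pool.Agent.Results.MP_43e44c_ag.IsolatedResidueDegrees
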