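import Pool.Agent.T6.H21.MP.Fam

/-!
# The noncommutative Hodge conjecture for `D(A) ⊠ 𝒟`, for the very general members `A` of families of abelian varieties with a
square zero operator of general rank and ARBITRARY admissible subcategories `𝒟`

Let `A i` be finitely many families of principally polarised abelian varieties, not constant, given by holomorphic families
`Z i` of period matrices over the connected open set `U` of `ℂ` (for instance the universal covering of a curve), and suppose
that each of them is good (`IsGoodFamily`): it satisfies one of the following conditions.

1. The very general member is simple, more than half of its endomorphisms are symmetric for the Rosati involution (that is, its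
   endomorphism algebra is of type I or II in the classification of Albert) and some rational rank `r` is different from `0`,
   `g / 2` and `g`, and `(g, r)` is not exceptional, or there is another rational rank. A rational rank is the rank of `γ - 1`
   for a monodromy operator `γ` with `(γ - 1)² = 0`, that is the dimension of the toric part of the fibre of the Néron model at
   a semistable degeneration, or the rank of any rational square zero element of the Lie algebra generated by the Hodge
   operators. The pair is exceptional if `2 g = e C(4j+2, 2j+1)` and `r = e C(4j, 2j)` for some `e` and some `j ≥ 1`, for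
   instance `(10, 6)`, `(126, 70)`.
2. All endomorphisms are rational numbers, some rank `r` of the family is different from `0`, `g / 2` and `g`, and `(g, r)` is
   not exceptional with `e = 1` or there is another rank, and `2 g` does not divide the product of two of the ranks. Here a rank
   of the family is the rank of the Kodaira–Spencer map at one point, of the difference of two period matrices, of the image of
   a period matrix under a derivation of the complex numbers, or of any square zero element of the Lie algebra generated by the
   Hodge operators.
3. The very general member is simple and some rank of the family is odd, or is two and the centre of the endomorphism algebra is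
   totally real.

Let `K` be an arbitrary countable field of complex numbers. We prove: for all `t` in `U` outside of a countable set, all products
`A` of the members `A i t` (any number of factors, repetitions allowed) and **all** admissible subcategories `𝒟` of `D^perf(Y)`,
`Y` an arbitrary smooth proper complex variety, such that the noncommutative Hodge filtration of `𝒟` is over `K` or `𝒟` is of CM
type:

* every Hodge class in `K^top_0(D(A) ⊠ 𝒟)_ℚ` is a sum of products of a product of divisor classes on `A` and a Hodge class
  of `𝒟`;
* **the noncommutative Hodge conjecture for `D(A) ⊠ 𝒟` is equivalent to the noncommutative Hodge conjecture for `𝒟`.** So it is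
  true for `D(A) ⊠ 𝒟` if `𝒟` is for instance the K3 category of a cubic fourfold or of a Gushel–Mukai variety, an admissible
  subcategory of `D^perf(Y)`, `dim Y ≤ 3`, …

Of `𝒟` we use the rational topological K-theory `K^top_0(𝒟)_ℚ ⊕ K^top_1(𝒟)_ℚ = ℚ^v` and the Hodge operator `V.z` on its
complexification (periodic cyclic homology), the multiplication by `δ` on the Hochschild homology group `HH_δ(𝒟)` (for
`𝒟 = D^perf(Y)` the sum of the `H^{p,q}(Y)` with `p - q = δ`); together they are `V : Coh v`, with `V.dg b = 0` or `1` if the basis
vector `b` is in `K^top_0` or `K^top_1`. The Hodge classes (`IsHodgeOn`) are the rational classes in `HH_0(𝒟)`, the kernel of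
`V.z`. The noncommutative Hodge filtration `⨁_{m ≥ n} HH_m(𝒟)` is over `K` (`HasFiltrationOver`) if its steps are spanned by
vectors with coordinates in `K` in the rational basis: the periods of `𝒟` are in `K`. For each `𝒟` (and for countably many `𝒟`)
this is true for a suitable countable `K`, for instance for all `𝒟` over the algebraic closure of a finitely generated field at
the same time. And `𝒟` is of CM type (`IsOfCMType`) if the Hodge operator commutes with its conjugates.

`D(A) ⊠ 𝒟 ⊆ D^perf(A × Y)` is the admissible subcategory generated by the products of objects of `D(A)` and `𝒟`. Its topological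
K-theory is the space `HAZ W v` of the alternating forms of all degrees on the rational homology `W` of `A` with values in `ℚ^v`,
and `IsHodgeOnProduct` says that a class is in `HH_0`: it extends to a real multilinear form on the tangent space with values in
`ℂ^v` which is killed by the sum of the Hodge operators of `A` and `𝒟`. The only properties of the classes of objects that are
used are in `IsObjectClasses`: products of objects are objects, and the restriction to the fibre over the origin of `A` maps
objects of `D(A) ⊠ 𝒟` to objects of `𝒟`.

The proof: by a classification free argument with Jordan pairs (`Pool/Agent/Y91`) the Lie algebras generated by the Hodge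
operators of the very general `A i t` are symplectic over the complex numbers on each irreducible piece. Derivations of the
complex numbers over `K` move the periods of the `A i t` and preserve the noncommutative Hodge filtration of `𝒟`, hence the Hodge
structures of `A` and `𝒟` are independent.
-/

set_option autoImplicit false

namespace Pool.Agent.Results.MP_43e44c_ag.MonodromyFamilies

open Pool.Agent.W437.HP (perFam)
open Pool.Agent.TH131.GHC (Coh HAZ cross)
open Pool.Agent.TH504.VY (divisorSpan IsHodgeOn IsHodgeOnProduct)
open Pool.Agent.X311 (HasFiltrationOver IsOfCMType)
open Pool.Agent.Y91.Sharp (IsGoodFamily)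

section

variable {W T : Type} [AddCommGroup W] [Module ℚ W] [AddCommGroup T] [Module ℂ T]

/-- `alg` and `algX` are the spans of the classes of the objects of `𝒟` and of `D(A) ⊠ 𝒟`: the products of products of divisor
classes on `A` and classes of objects of `𝒟` are in `algX`, and the restriction of an object of `D(A) ⊠ 𝒟` to the fibre over the
origin of `A`, that is the component in degree `0`, is an object of `𝒟`. -/
structure IsObjectClasses (per : W →+ T) {v : ℕ} (alg : Submodule ℚ (Fin v → ℚ)) (algX : Submodule ℚ (HAZ W v)) : Prop where
  box : ∀ k, ∀ f ∈ divisorSpan per k, ∀ x ∈ alg, cross f x ∈ algX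
  fibre : ∀ F ∈ algX, F 0 (fun l => l.elim0) ∈ alg

/-- All Hodge classes of `D(A) ⊠ 𝒟` are sums of products of a combination of products of divisor classes on `A` and a Hodge
class of `𝒟`. -/
def OnlyProducts (per : W →+ T) {v : ℕ} (V : Coh v) : Prop :=
  ∀ F, IsHodgeOnProduct per V F →
    F ∈ Submodule.span ℚ {G | ∃ (k : ℕ) (f : W [⋀^Fin k]→ₗ[ℚ] ℚ) (x : Fin v → ℚ),
      f ∈ divisorSpan per k ∧ IsHodgeOn V x ∧ G = cross f x}

/-- The noncommutative Hodge conjecture for `D(A) ⊠ 𝒟` is equivalent to the noncommutative Hodge conjecture for `𝒟`. -/
def NCHodgeIff (per : W →+ T) {v : ℕ} (V : Coh v) : Prop :=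
  ∀ (alg : Submodule ℚ (Fin v → ℚ)) (algX : Submodule ℚ (HAZ W v)), IsObjectClasses per alg algX →
    ((∀ F, IsHodgeOnProduct per V F → F ∈ algX) ↔ ∀ x, IsHodgeOn V x → x ∈ alg)

end

/-- Let `Z i` be finitely many good families over the connected open set `U`, not constant, and `K` a countable field of complex
numbers. For all `t` in `U` outside of a countable set, all (noncommutative) varieties `𝒟` of CM type or with noncommutative
Hodge filtration over `K`, and all products `A` of abelian varieties `ℂ ^ g / (ℤ ^ g + Z(t) ℤ ^ g)`, `Z` one of the `Z i`
(repetitions allowed): the Hodge classes of `D(A) ⊠ 𝒟` are sums of products, and the noncommutative Hodge conjectures for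
`D(A) ⊠ 𝒟` and for `𝒟` are equivalent. -/
theorem result {ι : Type} [Fintype ι] {U : Set ℂ} (hU : IsOpen U) (hc : IsPreconnected U)
    {g : ι → ℕ} (Z : ∀ i, ℂ → Matrix (Fin (g i)) (Fin (g i)) ℂ)
    (h : ∀ i, IsGoodFamily U (Z i)) (hnc : ∀ i, ∃ s ∈ U, ∃ t ∈ U, Z i s ≠ Z i t)
    (K : Subfield ℂ) (hK : (K : Set ℂ).Countable) :
    ∃ E : Set ℂ, E.Countable ∧ ∀ t ∈ U, t ∉ E → ∀ (v : ℕ) (V : Coh v), IsOfCMType V ∨ HasFiltrationOver K V →
      ∀ (m : ℕ) (c : Fin m → ι), OnlyProducts (perFam (fun i => Z i t) c) V ∧ NCHodgeIff (perFam (fun i => Z i t) c) V := by
  obtain ⟨E, hE, hEt⟩ := Pool.Agent.T6.H21.MP.exists_repro hU hc Z h hnc K hK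
  refine ⟨E, hE, fun t ht htE v V hV m c => ⟨fun _ hF => (hEt t ht htE v V hV m c).mem_cross hF, fun _ _ hobj => ?_⟩⟩
  exact (hEt t ht htE v V hV m c).hodge_iff hobj.box hobj.fibre

end Pool.Agent.Results.MP_43e44c_ag.MonodromyFamilies
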